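import Pool.Agent.H27.L1.H95.GHK.JKT
import Pool.Agent.H27.L1.H74.GHK.JKG2
import Pool.Agent.H27.L1.H91.GHK.JKZ

/-!
The page ghk: row JKG.
-/

set_option autoImplicit false

namespace Pool.Agent.H27.L1.H95.GHK

theorem pf_CORE : T_CORE := Pool.Agent.H27.L1.H74.GHK.core

theorem jkg : T_JKG := jkg_of_core pf_CORE

/-- row JKG, in the form of helper91 -/
theorem pf_JKG : Pool.Agent.H27.L1.H91.GHK.T_JKG := jkg

end Pool.Agent.H27.L1.H95.GHK
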