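import Pool.Agent.H27.L1.H68.GHK.Targets
import Pool.Agent.H27.L1.H5.GHK.FLG
import Pool.Agent.H27.L1.H40.GHK.GRD

/-!
The page ghk: the choice of the coordinate.
-/

set_option autoImplicit false

namespace Pool.Agent.H27.L1.H95.GHK

open MeasureTheory Pool.Agent.H27.L1.H34.GM Pool.Agent.H27.L1.H34.GZ Pool.Agent.H27.L1.H34.GU Pool.Agent.H27.L1.H34.GA
  Pool.Agent.H27.L1.H68.GHK

open Pool.Agent.H27.L1.H40.GHK (fsq Flg grd_pos fsq_nonneg)

variable {m : ℕ}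

theorem prj' {E : Mat m} (h : Pool.Agent.H27.L1.H68.GHK.Prj E) : Pool.Agent.H27.L1.H40.GHK.Prj E :=
  ⟨h.sym, h.idem⟩

theorem ep_top {j : ℕ} (h : ¬ j ≤ m) (w : Mat m) : EP j w = 1 := by
  unfold EP
  rw [dif_neg h]

theorem flgEP {w : Mat m} (hw : w.det ≠ 0) : Flg (fun j : ℕ => EP j w) := by
  have hP : ∀ j : ℕ, Pool.Agent.H27.L1.H68.GHK.Prj (EP j w) := by
    intro j
    by_cases h : j ≤ m
    · exact Pool.Agent.H27.L1.H5.GHK.ep_prj h hw
    · rw [ep_top h]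
      exact ⟨Matrix.transpose_one, Matrix.one_mul 1⟩
  refine ⟨fun j => prj' (hP j), fun i j hij => ?_⟩
  show EP j w * EP i w = EP i w
  by_cases h : j ≤ m
  · have h1 := congrArg Matrix.transpose (Pool.Agent.H27.L1.H5.GHK.ep_mul_ep hij h hw)
    rwa [Matrix.transpose_mul, (hP i).sym, (hP j).sym] at h1
  · rw [ep_top h, Matrix.one_mul]

theorem bt_nn {mu : Fin m → ℂ} (hmu : Monotone (fun j => (mu j).im)) (j : ℕ) :
    0 ≤ Pool.Agent.H27.L1.H68.GHK.bt mu j := by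
  unfold Pool.Agent.H27.L1.H68.GHK.bt
  split_ifs with h
  · have h1 : (mu ⟨j - 1, by omega⟩).im ≤ (mu ⟨j, h.2⟩).im :=
      hmu (show (⟨j - 1, by omega⟩ : Fin m) ≤ ⟨j, h.2⟩ from Nat.sub_le j 1)
    linarith
  · exact le_refl _

theorem sz_le_fsq (A : Mat m) : sz A ≤ Real.sqrt (fsq A) := by
  unfold sz
  rw [pi_norm_le_iff_of_nonneg (Real.sqrt_nonneg _)]
  intro i
  rw [pi_norm_le_iff_of_nonneg (Real.sqrt_nonneg _)]
  intro j
  refine Real.le_sqrt_of_sq_le ?_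
  rw [Real.norm_eq_abs, sq_abs]
  unfold fsq
  exact (Finset.single_le_sum (f := fun j => A i j ^ 2) (fun j _ => sq_nonneg _)
    (Finset.mem_univ j)).trans (Finset.single_le_sum (f := fun i => ∑ j, A i j ^ 2)
    (fun i _ => Finset.sum_nonneg fun j _ => sq_nonneg _) (Finset.mem_univ i))

theorem max_entry (hm : 1 ≤ m) (X : Mat m) : ∃ a b : Fin m, Real.sqrt (fsq X) ≤ m * |X a b| := by
  obtain ⟨p, -, hp⟩ := Finset.exists_max_image (Finset.univ : Finset (Fin m × Fin m))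
    (fun p => |X p.1 p.2|) ⟨(⟨0, by omega⟩, ⟨0, by omega⟩), Finset.mem_univ _⟩
  refine ⟨p.1, p.2, ?_⟩
  have h0 : 0 ≤ (m : ℝ) * |X p.1 p.2| := by positivity
  refine Real.sqrt_le_iff.2 ⟨h0, ?_⟩
  have h1 : ∀ i j, X i j ^ 2 ≤ |X p.1 p.2| ^ 2 := by
    intro i j
    rw [← sq_abs (X i j)]
    exact pow_le_pow_left₀ (abs_nonneg _) (hp (i, j) (Finset.mem_univ _)) 2
  calc fsq X ≤ ∑ _i : Fin m, ∑ _j : Fin m, |X p.1 p.2| ^ 2 :=
        Finset.sum_le_sum fun i _ => Finset.sum_le_sum fun j _ => h1 i j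
    _ = ((m : ℝ) * |X p.1 p.2|) ^ 2 := by
        simp only [Finset.sum_const, Finset.card_univ, Fintype.card_fin, nsmul_eq_mul]
        ring

/-- the derivative of the phase at `1`, up to the factor `2` -/
noncomputable def XX (mu : Fin m → ℂ) (w w' : Mat m) : Mat m :=
  ∑ j ∈ Finset.range m, bt mu j • (EP j w - EP j w')

theorem cho (hm : 1 ≤ m) {mu : Fin m → ℂ} (hmu : Monotone (fun j => (mu j).im)) {w w' : Mat m}
    (hw : w.det ≠ 0) (hw' : w'.det ≠ 0) : ∃ a b : Fin m,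
    ∑ j ∈ Finset.range m, bt mu j * Real.sqrt (fsq (EP j w - EP j w')) ≤
      (m : ℝ) ^ 2 * |XX mu w w' a b| ∧ Gg mu w w' ≤ (m : ℝ) ^ 2 * |XX mu w w' a b| := by
  obtain ⟨a, b, hab⟩ := max_entry hm (XX mu w w')
  have h1 := grd_pos (flgEP hw) (flgEP hw') (Finset.range m) (bt mu) fun i _ => bt_nn hmu i
  have h2 : ∀ j ∈ Finset.range m, bt mu j * Real.sqrt (fsq (EP j w - EP j w')) ≤
      (m : ℝ) * |XX mu w w' a b| := by
    intro j hj
    refine le_trans ?_ hab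
    refine Real.le_sqrt_of_sq_le ?_
    rw [mul_pow, Real.sq_sqrt (fsq_nonneg _)]
    refine le_trans ?_ h1
    exact Finset.single_le_sum (f := fun i => bt mu i ^ 2 * fsq (EP i w - EP i w'))
      (fun i _ => mul_nonneg (sq_nonneg _) (fsq_nonneg _)) hj
  have h3 : ∑ j ∈ Finset.range m, bt mu j * Real.sqrt (fsq (EP j w - EP j w')) ≤
      (m : ℝ) ^ 2 * |XX mu w w' a b| := by
    calc _ ≤ ∑ _j ∈ Finset.range m, (m : ℝ) * |XX mu w w' a b| := Finset.sum_le_sum h2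
      _ = _ := by
        rw [Finset.sum_const, Finset.card_range, nsmul_eq_mul]
        ring
  refine ⟨a, b, h3, le_trans ?_ h3⟩
  unfold Gg
  exact Finset.sum_le_sum fun j _ => mul_le_mul_of_nonneg_left (sz_le_fsq _) (bt_nn hmu j)

end Pool.Agent.H27.L1.H95.GHK
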