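import Pool.Agent.H27.L1.H95.GHK.CHO
import Pool.Agent.H27.L1.H74.GHK.JKG1
import Pool.Agent.H27.L1.H14.GHK.PWR

/-!
The page ghk: from the oscillating integral over a ball for two flags to the power functions.
-/

set_option autoImplicit false

namespace Pool.Agent.H27.L1.H95.GHK

open MeasureTheory Pool.Agent.H27.L1.H34.GM Pool.Agent.H27.L1.H34.GZ Pool.Agent.H27.L1.H34.GU Pool.Agent.H27.L1.H34.GA
  Pool.Agent.H27.L1.H68.GHK

open Pool.Agent.H27.L1.H40.GHK (fsq Flg grd_pos fsq_nonneg)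

open Pool.Agent.H27.L1.H14.GHK (Ep ex Dp pw_div Ep_full Ep_le ex_sub ex_top)

open Pool.Agent.H27.L1.H74.GHK (dr gf)

variable {m : ℕ}

/-- the cutoff -/
noncomputable def ct (m A : ℕ) (r : ℝ) (z : V m) : ℝ :=
  open Classical in
  if fsq (mt z - 1) < r ^ 2 then (1 - fsq (mt z - 1) / r ^ 2) ^ A else 0

/-- the estimate for two flags -/
def T_CORE : Prop := ∀ m : ℕ, 1 ≤ m → ∃ r : ℝ, 0 < r ∧ r ≤ 1 / (4 * m) ∧
  (∀ z : Matrix (Fin m) (Fin m) ℝ, fsq (z - 1) < r ^ 2 → z.det ≠ 0) ∧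
  ∀ (A : ℕ) (M : ℝ), ∃ C : ℝ, 0 < C ∧
  ∀ (E E' : Fin m → Matrix (Fin m) (Fin m) ℝ), Flg E → Flg E' →
  ∀ c : Fin m → ℂ, (∀ j, |(c j).re| ≤ M) → (∀ j, 0 ≤ (c j).im ∨ E j = E' j) →
    ‖∫ Y in {Y : Fin m → Fin m → ℝ | fsq Y < r ^ 2},
      (((1 - fsq Y / r ^ 2) ^ A : ℝ) : ℂ) * gf E E' c (1 + Matrix.of Y)‖ ≤
      C * ((1 + ∑ j, |(c j).im| * Real.sqrt (fsq (E j - E' j))) ^ A)⁻¹

/-- the oscillating integral -/
def T_JKG : Prop := ∀ m : ℕ, 1 ≤ m → ∃ r : ℝ, 0 < r ∧ r ≤ 1 / (4 * m) ∧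
  ∀ (A : ℕ) (M : ℝ), ∃ C : ℝ, 0 < C ∧ ∀ mu : Fin m → ℂ, (∀ j, |(mu j).re| ≤ M) →
  Monotone (fun j => (mu j).im) → ∀ w w' : Mat m, w.det ≠ 0 → w'.det ≠ 0 →
    ‖∫ z : V m, (ct m A r z : ℂ) * ((pw mu (mt z * w) / pw mu w) *
      (starRingEnd ℂ) (pw mu (mt z * w') / pw mu w'))‖ ≤ C * ((1 + Gg mu w w') ^ A)⁻¹

theorem Ep_EP {j : ℕ} (h : j ≤ m) (w : Mat m) : Ep w j = EP j w := by
  rw [Ep_le w h, Pool.Agent.H27.L1.H5.GHK.ep_eq h]
  rfl

/-- the flag of the spans of the columns -/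
noncomputable def fE (w : Mat m) (j : Fin m) : Mat m := EP ((j : ℕ) + 1) w

/-- the exponents -/
noncomputable def fc (mu : Fin m → ℂ) (j : Fin m) : ℂ := ex mu (j : ℕ) - ex mu ((j : ℕ) + 1)

theorem flg_fE {w : Mat m} (hw : w.det ≠ 0) : Flg (fE w) := by
  have h := flgEP hw
  exact ⟨fun j => h.prj _, fun i j hij => h.nest _ _ (Nat.succ_le_succ hij)⟩

theorem pw_gf (mu : Fin m → ℂ) {w w' z : Mat m} (hw : w.det ≠ 0) (hw' : w'.det ≠ 0)
    (hz : z.det ≠ 0) : pw mu (z * w) / pw mu w *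
      (starRingEnd ℂ) (pw mu (z * w') / pw mu w') = gf (fE w) (fE w') (fc mu) z := by
  have h1 : ∀ {v : Mat m}, v.det ≠ 0 → pw mu (z * v) / pw mu v =
      Complex.exp (∑ j, fc mu j * (Real.log (dr (fE v j) z) : ℝ)) := by
    intro v hv
    rw [pw_div mu hv hz]
    congr 1
    rw [← Fin.sum_univ_eq_sum_range (fun j : ℕ => (ex mu j - ex mu (j + 1)) *
      ((Real.log (Dp v (z.transpose * z) (j + 1)) : ℝ) : ℂ)) m]
    refine Finset.sum_congr rfl fun j _ => ?_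
    unfold fc fE dr Dp
    rw [Ep_EP (show (j : ℕ) + 1 ≤ m from j.2)]
  rw [h1 hw, h1 hw']
  rfl

theorem fc_re {mu : Fin m → ℂ} {M : ℝ} (hmu : ∀ j, |(mu j).re| ≤ M) (j : Fin m) :
    |(fc mu j).re| ≤ M + m := by
  have hM : 0 ≤ M := (abs_nonneg _).trans (hmu j)
  have hm1 : (1 : ℝ) ≤ m := by
    have := j.pos
    exact_mod_cast this
  unfold fc
  by_cases h : (j : ℕ) + 1 < m
  · rw [ex_sub mu h]
    have h1 := abs_le.1 (hmu ⟨(j : ℕ) + 1, h⟩)
    have h2 := abs_le.1 (hmu ⟨(j : ℕ), by omega⟩)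
    have e : ((mu ⟨(j : ℕ) + 1, h⟩ - mu ⟨(j : ℕ), by omega⟩ - 1) / 2).re =
        ((mu ⟨(j : ℕ) + 1, h⟩).re - (mu ⟨(j : ℕ), by omega⟩).re - 1) / 2 := by
      have : ((mu ⟨(j : ℕ) + 1, h⟩ - mu ⟨(j : ℕ), by omega⟩ - 1) / 2) =
          (mu ⟨(j : ℕ) + 1, h⟩ - mu ⟨(j : ℕ), by omega⟩ - 1) / ((2 : ℝ) : ℂ) := by norm_num
      rw [this, Complex.div_ofReal_re, Complex.sub_re, Complex.sub_re, Complex.one_re]
    rw [e, abs_le]
    constructor
    · linarith [h1.1, h2.2]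
    · linarith [h1.2, h2.1]
  · have hj : (j : ℕ) + 1 = m := by omega
    rw [hj, ex_top, sub_zero, Pool.Agent.H27.L1.H14.GHK.ex_lt]
    have h1 := abs_le.1 (hmu j)
    have hjr : ((j : ℕ) : ℝ) + 1 = m := by exact_mod_cast hj
    have e : ((-(mu j) + (2 * (((j : ℕ) : ℂ) + 1 : ℂ) - m - 1) / 2) / 2).re =
        (-(mu j).re + ((m : ℝ) - 1) / 2) / 2 := by
      have : ((-(mu j) + (2 * (((j : ℕ) : ℂ) + 1 : ℂ) - m - 1) / 2) / 2) =
          (-(mu j) + ((((2 * ((j : ℕ) + 1) - m - 1) / 2 : ℝ)) : ℂ)) / ((2 : ℝ) : ℂ) := by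
        push_cast
        ring
      rw [this, Complex.div_ofReal_re, Complex.add_re, Complex.neg_re, Complex.ofReal_re, hjr]
      ring
    rw [e, abs_le]
    constructor
    · linarith [h1.1, h1.2]
    · linarith [h1.1, h1.2]

theorem fc_im {mu : Fin m → ℂ} {j : ℕ} (h : j + 1 < m) :
    (fc mu ⟨j, by omega⟩).im = Pool.Agent.H27.L1.H68.GHK.bt mu (j + 1) := by
  unfold fc Pool.Agent.H27.L1.H68.GHK.bt
  rw [dif_pos ⟨by omega, h⟩]
  show (ex mu j - ex mu (j + 1)).im = _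
  rw [ex_sub mu h]
  have : ((mu ⟨j + 1, h⟩ - mu ⟨j, by omega⟩ - 1) / 2) =
      (mu ⟨j + 1, h⟩ - mu ⟨j, by omega⟩ - 1) / ((2 : ℝ) : ℂ) := by norm_num
  rw [this, Complex.div_ofReal_im, Complex.sub_im, Complex.sub_im, Complex.one_im, sub_zero]
  rfl

theorem fE_top {w w' : Mat m} (hw : w.det ≠ 0) (hw' : w'.det ≠ 0) {j : Fin m}
    (h : ¬ (j : ℕ) + 1 < m) : fE w j = fE w' j := by
  have hj : (j : ℕ) + 1 = m := by omega
  unfold fE
  rw [hj, ← Ep_EP le_rfl, ← Ep_EP le_rfl, Ep_full hw, Ep_full hw']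

theorem Gg_le {mu : Fin m → ℂ} (hmu : Monotone (fun j => (mu j).im)) {w w' : Mat m}
    (hw : w.det ≠ 0) (hw' : w'.det ≠ 0) :
    Gg mu w w' ≤ ∑ j, |(fc mu j).im| * Real.sqrt (fsq (fE w j - fE w' j)) := by
  cases m with
  | zero => simp [Gg]
  | succ n =>
    have h1 : Gg mu w w' = ∑ j ∈ Finset.range n, Pool.Agent.H27.L1.H68.GHK.bt mu (j + 1) *
        sz (EP (j + 1) w - EP (j + 1) w') := by
      unfold Gg
      rw [Finset.sum_range_succ']
      have h0 : Pool.Agent.H27.L1.H68.GHK.bt mu 0 = 0 := by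
        unfold Pool.Agent.H27.L1.H68.GHK.bt
        rw [dif_neg (by omega)]
      rw [h0, zero_mul, add_zero]
    rw [h1, Fin.sum_univ_castSucc]
    have h2 : 0 ≤ |(fc mu (Fin.last n)).im| *
        Real.sqrt (fsq (fE w (Fin.last n) - fE w' (Fin.last n))) :=
      mul_nonneg (abs_nonneg _) (Real.sqrt_nonneg _)
    have h3 : ∑ j ∈ Finset.range n, Pool.Agent.H27.L1.H68.GHK.bt mu (j + 1) *
        sz (EP (j + 1) w - EP (j + 1) w') ≤ ∑ i : Fin n, |(fc mu i.castSucc).im| *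
          Real.sqrt (fsq (fE w i.castSucc - fE w' i.castSucc)) := by
      rw [← Fin.sum_univ_eq_sum_range (fun j : ℕ => Pool.Agent.H27.L1.H68.GHK.bt mu (j + 1) *
        sz (EP (j + 1) w - EP (j + 1) w')) n]
      refine Finset.sum_le_sum fun i _ => ?_
      have h4 : (fc mu i.castSucc).im = Pool.Agent.H27.L1.H68.GHK.bt mu ((i : ℕ) + 1) :=
        fc_im (by omega)
      rw [h4, abs_of_nonneg (bt_nn hmu _)]
      exact mul_le_mul_of_nonneg_left (sz_le_fsq _) (bt_nn hmu _)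
    linarith

theorem Gg_nn {mu : Fin m → ℂ} (hmu : Monotone (fun j => (mu j).im)) (w w' : Mat m) :
    0 ≤ Gg mu w w' := by
  unfold Gg
  exact Finset.sum_nonneg fun j _ => mul_nonneg (bt_nn hmu j) (norm_nonneg _)

/-- the assembly -/
theorem jkg_of_core (h : T_CORE) : T_JKG := by
  intro m hm
  obtain ⟨r, hr, hrm, hdet, hC⟩ := h m hm
  refine ⟨r, hr, hrm, fun A M => ?_⟩
  obtain ⟨C, hC0, hC1⟩ := hC A (M + m)
  refine ⟨C, hC0, ?_⟩
  intro mu hre hmono w w' hw hw'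
  have h1 := hC1 (fE w) (fE w') (flg_fE hw) (flg_fE hw') (fc mu) (fc_re hre) (fun j => by
    by_cases hj : (j : ℕ) + 1 < m
    · left
      have := fc_im (mu := mu) hj
      have h2 : (fc mu j).im = Pool.Agent.H27.L1.H68.GHK.bt mu ((j : ℕ) + 1) := this
      rw [h2]
      exact bt_nn hmono _
    · right
      exact fE_top hw hw' hj)
  have hmeas : MeasurableSet {Y : Fin m → Fin m → ℝ | fsq Y < r ^ 2} := by
    refine measurableSet_lt ?_ measurable_const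
    unfold fsq
    fun_prop
  have h2 : ∫ z : V m, (ct m A r z : ℂ) * ((pw mu (mt z * w) / pw mu w) *
      (starRingEnd ℂ) (pw mu (mt z * w') / pw mu w')) =
      ∫ Y in {Y : Fin m → Fin m → ℝ | fsq Y < r ^ 2},
        (((1 - fsq Y / r ^ 2) ^ A : ℝ) : ℂ) * gf (fE w) (fE w') (fc mu) (1 + Matrix.of Y) := by
    rw [← integral_indicator hmeas]
    rw [← integral_add_right_eq_self (μ := (volume : Measure (V m))) (fun z : V m =>
      (ct m A r z : ℂ) * ((pw mu (mt z * w) / pw mu w) *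
      (starRingEnd ℂ) (pw mu (mt z * w') / pw mu w'))) (fun i j => (1 : Mat m) i j)]
    refine integral_congr_ae (Filter.Eventually.of_forall fun Y => ?_)
    have e1 : mt (Y + fun i j => (1 : Mat m) i j) = 1 + Matrix.of Y := by
      ext i j
      simp [add_comm]
    have e2 : mt (Y + fun i j => (1 : Mat m) i j) - 1 = Matrix.of Y := by
      rw [e1]
      abel
    by_cases hY : fsq Y < r ^ 2
    · rw [Set.indicator_of_mem (show Y ∈ {Y : Fin m → Fin m → ℝ | fsq Y < r ^ 2} from hY)]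
      have hY' : fsq (mt (Y + fun i j => (1 : Mat m) i j) - 1) < r ^ 2 := by
        rw [e2]
        exact hY
      have hd : (mt (Y + fun i j => (1 : Mat m) i j)).det ≠ 0 := hdet _ hY'
      show ((ct m A r (Y + fun i j => (1 : Mat m) i j) : ℝ) : ℂ) * _ = _
      rw [pw_gf mu hw hw' hd]
      unfold ct
      rw [if_pos hY', e2, e1]
      rfl
    · rw [Set.indicator_of_notMem (show Y ∉ {Y : Fin m → Fin m → ℝ | fsq Y < r ^ 2} from hY)]
      have hY' : ¬ fsq (mt (Y + fun i j => (1 : Mat m) i j) - 1) < r ^ 2 := by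
        rw [e2]
        exact hY
      show ((ct m A r (Y + fun i j => (1 : Mat m) i j) : ℝ) : ℂ) * _ = _
      unfold ct
      rw [if_neg hY', Complex.ofReal_zero, zero_mul]
  rw [h2]
  refine h1.trans (mul_le_mul_of_nonneg_left ?_ hC0.le)
  have h3 := Gg_nn hmono w w'
  have h4 := Gg_le hmono hw hw'
  gcongr

end Pool.Agent.H27.L1.H95.GHK
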